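import Pool.Agent.Helper20.EX3.R3
import Pool.Agent.Helper27.EX.RegIFin
import Pool.Agent.Helper27.EX.RegIIFin
import Pool.Agent.Helper24.OWN.OT

/-!
# MP_2857a5_co : spanning oriented trees and forests in digraphs of semidegree `n/2 + c log n`
-/

set_option autoImplicit false

universe u v

namespace Pool.Agent.Results.MP_2857a5_co.OrientedForests

/-- The out-degree of `v`. -/
noncomputable def outDeg {V : Type u} (D : Digraph V) (v : V) : ℕ := {w | D.Adj v w}.ncard

/-- The in-degree of `v`. -/
noncomputable def inDeg {V : Type u} (D : Digraph V) (v : V) : ℕ := {w | D.Adj w v}.ncard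

/-- The minimum semidegree. -/
noncomputable def semiDeg {V : Type u} (D : Digraph V) : ℕ := ⨅ v, min (outDeg D v) (inDeg D v)

theorem semiDeg_le {V : Type u} (D : Digraph V) (v : V) :
    semiDeg D ≤ outDeg D v ∧ semiDeg D ≤ inDeg D v := by
  have h : semiDeg D ≤ min (outDeg D v) (inDeg D v) := Nat.sInf_le ⟨v, rfl⟩
  exact ⟨h.trans (min_le_left _ _), h.trans (min_le_right _ _)⟩

theorem outDeg_lt {V : Type u} [Finite V] (D : Digraph V) (hD : ∀ v, ¬ D.Adj v v) (v : V) :
    outDeg D v < Nat.card V := by
  rw [← Set.ncard_univ]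
  apply Set.ncard_lt_ncard _ (Set.toFinite _)
  refine ⟨Set.subset_univ _, fun h => hD v (h (Set.mem_univ v))⟩

/-- For every `Δ` there is a constant `c` such that every finite digraph `D` without loops, with `n`
vertices and minimum semidegree at least `n/2 + c log n`, contains every oriented forest with at most
`n` vertices and maximum total degree at most `Δ`. -/
theorem result (Δ : ℕ) : ∃ c : ℝ, ∀ (V : Type u) [Finite V] (D : Digraph V),
    (∀ v, ¬ D.Adj v v) → (Nat.card V : ℝ) / 2 + c * Real.log (Nat.card V) ≤ (semiDeg D : ℝ) →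
    ∀ (W : Type v) [Finite W] (T : Digraph W), Nat.card W ≤ Nat.card V →
      (∀ x y, T.Adj x y → ¬ T.Adj y x) → T.toSimpleGraphInclusive.IsAcyclic →
      (∀ x, outDeg T x + inDeg T x ≤ Δ) →
      ∃ φ : W → V, Function.Injective φ ∧ ∀ x y, T.Adj x y → D.Adj (φ x) (φ y) := by
  obtain ⟨c0, N, H⟩ := OT.x3_frozen OT.regI OT.regII OT.x3_regIII OT.x3_is (max Δ 2)
  refine ⟨max c0 ((N : ℝ) / Real.log 2), ?_⟩
  intro V _ D hD hS W _ T hW hT hac hdeg
  rcases Nat.eq_zero_or_pos (Nat.card V) with h0 | hpos
  · -- no vertices at all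
    have hW0 : Nat.card W = 0 := by omega
    have hWe : IsEmpty W := by
      rcases Nat.card_eq_zero.1 hW0 with h | h
      · exact h
      · exact absurd ‹Finite W› (not_finite_iff_infinite.2 h)
    exact ⟨fun w => (hWe.false w).elim, fun w => (hWe.false w).elim, fun w => (hWe.false w).elim⟩
  have hne : Nonempty V := (Nat.card_pos_iff.1 hpos).1
  obtain ⟨v0⟩ := hne
  have hlt : (semiDeg D : ℝ) < (Nat.card V : ℝ) := by
    exact_mod_cast (semiDeg_le D v0).1.trans_lt (outDeg_lt D hD v0)
  have hlog : 0 ≤ Real.log (Nat.card V) := Real.log_nonneg (by exact_mod_cast hpos)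
  -- the number of vertices is large
  have hN : N ≤ Nat.card V := by
    by_contra hcon
    push Not at hcon
    rcases Nat.lt_or_ge (Nat.card V) 2 with h2 | h2
    · have h1 : Nat.card V = 1 := by omega
      have h3 : semiDeg D = 0 := by
        have := (semiDeg_le D v0).1.trans_lt (outDeg_lt D hD v0)
        omega
      rw [h1, h3] at hS
      norm_num at hS
    · have hl2 : 0 < Real.log 2 := Real.log_pos (by norm_num)
      have h3 : Real.log 2 ≤ Real.log (Nat.card V) :=
        Real.log_le_log (by norm_num) (by exact_mod_cast h2)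
      have h4 : (N : ℝ) ≤ max c0 ((N : ℝ) / Real.log 2) * Real.log (Nat.card V) := by
        calc (N : ℝ) = (N : ℝ) / Real.log 2 * Real.log 2 := by field_simp
          _ ≤ (N : ℝ) / Real.log 2 * Real.log (Nat.card V) :=
            mul_le_mul_of_nonneg_left h3 (by positivity)
          _ ≤ _ := mul_le_mul_of_nonneg_right (le_max_right _ _) hlog
      have h5 : (Nat.card V : ℝ) ≤ N := by exact_mod_cast hcon.le
      have h6 : (0 : ℝ) ≤ Nat.card V := Nat.cast_nonneg _
      linarith
  -- transport to `Fin n`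
  have hV : Fintype V := Fintype.ofFinite V
  have f : Fin (Nat.card V) ≃ V := (Finite.equivFin V).symm
  have hout : ∀ i, ({w | D.Adj (f i) (f w) ∧ w ≠ i} : Set (Fin (Nat.card V))).ncard = outDeg D (f i) := by
    intro i
    have h1 : f '' {w | D.Adj (f i) (f w) ∧ w ≠ i} = {w | D.Adj (f i) w} := by
      ext w
      constructor
      · rintro ⟨j, ⟨hj, -⟩, rfl⟩
        exact hj
      · intro hw
        refine ⟨f.symm w, ⟨by simpa using hw, ?_⟩, by simp⟩
        rintro rfl
        apply hD w
        simpa using hw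
    rw [← Set.ncard_image_of_injective _ f.injective, h1]
    rfl
  have hin : ∀ i, ({w | D.Adj (f w) (f i) ∧ w ≠ i} : Set (Fin (Nat.card V))).ncard = inDeg D (f i) := by
    intro i
    have h1 : f '' {w | D.Adj (f w) (f i) ∧ w ≠ i} = {w | D.Adj w (f i)} := by
      ext w
      constructor
      · rintro ⟨j, ⟨hj, -⟩, rfl⟩
        exact hj
      · intro hw
        refine ⟨f.symm w, ⟨by simpa using hw, ?_⟩, by simp⟩
        rintro rfl
        apply hD w
        simpa using hw
    rw [← Set.ncard_image_of_injective _ f.injective, h1]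
    rfl
  have hbound : (Nat.card V : ℝ) / 2 + c0 * Real.log (Nat.card V) ≤ (semiDeg D : ℝ) := by
    have := mul_le_mul_of_nonneg_right (le_max_left c0 ((N : ℝ) / Real.log 2)) hlog
    linarith
  have hG := H (Nat.card V) hN (fun i j => D.Adj (f i) (f j)) (by
    intro i
    rw [hout, hin]
    have h1 := semiDeg_le D (f i)
    exact ⟨hbound.trans (by exact_mod_cast h1.1), hbound.trans (by exact_mod_cast h1.2)⟩)
  obtain ⟨φ, hφ, hφ2⟩ := Pool.Agent.Helper24.OWN.OT.forest (Nat.card V) hpos (max Δ 2)
    (le_max_right _ _) (fun i j => D.Adj (f i) (f j)) hG T hW hT hac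
    (fun x => (hdeg x).trans (le_max_left _ _))
  exact ⟨fun w => f (φ w), f.injective.comp hφ, fun x y hxy => hφ2 x y hxy⟩

end Pool.Agent.Results.MP_2857a5_co.OrientedForests
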